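import Mathlib
import Pool.Agent.V5helper27.EXT.Main

/-!
# MP_fe178f_an: Baire measurable maps on Lindelöf sets of extreme points have separable range

Full (positive) answer to Q1, for every metrizable target space.

Idea of the proof.  Let `X` be compact convex with `T = ext X` Lindelöf.
(1) Every Baire set of `T` depends on countably many continuous linear functionals.
(2) Every countable set of functionals extends to a countable set `D` such that `(l x)_{l ∈ D}`
maps `ext X` *onto the set of extreme points* of the (metrizable) image of `X`; in particular the
image of `ext X` is a Borel set.
(3) If `f : T → F` were Baire measurable with nonseparable range, there would be `ℵ₁` many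
disjoint nonempty sets in `T` all of whose partial unions are Baire.  Code the index set by an
injection into the Cantor space.  By (1) and (2) the induced map `h` from a Borel set `Z` of
`ℝ^ℕ` onto the uncountable code set is Borel, and the preimage under `h` of *every* subset `S`
of the Cantor space is analytic, being a continuous image of the Borel set given by a larger
countable family of functionals; the same holds for the complement, so it is Borel.
But the range of `h` is uncountable analytic, so `h` is injective on a set of the size of the
continuum, which gives `2^𝔠` many Borel sets, a contradiction.
-/

set_option autoImplicit false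

namespace Pool.Agent.Results.MP_fe178f_an.SeparableRange

open Set TopologicalSpace MeasureTheory

/-- The Baire σ-algebra of a topological space: the σ-algebra generated by the zero sets of the
continuous real functions. -/
def baireSets (T : Type*) [TopologicalSpace T] : MeasurableSpace T :=
  MeasurableSpace.generateFrom {Z | ∃ g : T → ℝ, Continuous g ∧ Z = g ⁻¹' {0}}

/-- `f` is Baire measurable: preimages of open sets are Baire sets. -/
def IsBaireMeasurable {T F : Type*} [TopologicalSpace T] [TopologicalSpace F] (f : T → F) : Prop :=
  ∀ U : Set F, IsOpen U → MeasurableSet[baireSets T] (f ⁻¹' U)

/-- If `X` is a compact convex set in a Hausdorff locally convex space and `ext X` is Lindelöf,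
then every Baire measurable map of `ext X` into a metrizable space has separable range. -/
theorem result {E : Type*} [AddCommGroup E] [Module ℝ E] [TopologicalSpace E]
    [IsTopologicalAddGroup E] [ContinuousSMul ℝ E] [LocallyConvexSpace ℝ E] [T2Space E]
    {X : Set E} (hX : IsCompact X) (hconv : Convex ℝ X) (hL : LindelofSpace (X.extremePoints ℝ))
    {F : Type*} [TopologicalSpace F] [PseudoMetrizableSpace F] (f : X.extremePoints ℝ → F)
    (hf : IsBaireMeasurable f) : SeparableSpace (Set.range f) := by
  letI := pseudoMetrizableSpacePseudoMetric F
  obtain ⟨C, -, hC, hCf⟩ := Pool.Agent.V5helper27.EXT.separable_range hX hconv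
    (isLindelof_iff_lindelofSpace.2 hL) f hf
  have : IsSeparable (Set.range f) := ⟨C, hC, hCf⟩
  exact this.separableSpace

end Pool.Agent.Results.MP_fe178f_an.SeparableRange
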